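import Pool.Agent.E8helper40.PK.AlmostAll

/-!
# Almost all special points of products of Shimura varieties have equidistributed Galois orbits

Let `S = ∏_{j ∈ J} S_j` be a product of connected components of Shimura varieties, defined over the
number field `F`, and `Γ = Gal(ℚ̄ / F)`. For each `i` and `j` let `Q_{ij}` be a packet of special
points of `S_j`: a non-empty finite set, stable under `Γ`, of special points with the same fields
`L` and `H`, where `L` is the Galois closure of the reflex field of the special point and `H` is an
abelian extension of `L`, Galois over `ℚ`, such that the points are defined over `F H`. Examples are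
the Galois orbits of special points, or the sets of all special points with a given order (for
Shimura varieties of quaternion algebras and Hilbert modular varieties).

**Theorem.** If for each `j` the sequence of packets `(Q_{ij})` is character-equidistributed with
respect to the probability measure `m_j` on `S_j`, then there are sets `E_i` of special points such
that `|∏_j Q_{ij} ∩ E_i| / |∏_j Q_{ij}|` tends to `0`, and such that for all sequences
`y_i ∈ ∏_j Q_{ij}` with `y_i ∉ E_i` for all large `i` the uniform measures on the Galois orbits
`Gal(ℚ̄ / F) y_i` converge weakly to the product of the measures `m_j`.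

So Q1 has a positive answer for almost all special points of `S`, if the coordinates are
character-equidistributed. Nothing is assumed on the fields of different coordinates, which may be
equal. There must be exceptional points, for example those in the diagonal of `S_1 × S_1`.

Character-equidistributed: the averages of `f - ∫ f dm_j`, for bounded continuous `f`, over the orbits
of the points of `Q_{ij}` under `Gal(ℚ̄ / F L)`, twisted by the characters of this group, tend to `0`
uniformly. For the CM points on modular and Shimura curves this is known: these averages are Weyl
sums for class group characters, which have a power saving by the subconvex bounds of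
Duke-Friedlander-Iwaniec, Harcos-Michel, Venkatesh and Michel-Venkatesh together with the formulas of
Waldspurger, Zhang and Yuan-Zhang-Zhang; for the other Shimura varieties of quaternion algebras it
follows from the same results if the Galois orbits have small index in the toric packets
(Zhang 2005).

Dictionary: `G = Gal(ℚ̄ / ℚ)`, `W j = S_j`, `(P j).Z` the set of special points of `S_j`,
`(P j).K z = Gal(ℚ̄ / L_z)`, which has index at most `c`, and `(P j).N z = Gal(ℚ̄ / H_z)`.

The proof is by the second moment over the tuples. The Galois group of the compositum of `F` and the
fields `L` of the coordinates acts on the coordinates through abelian groups, so the mean square of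
the deviation of the average of `∏ f_j` over the Galois orbits is bounded by the mean squares of
autocorrelations along the Galois group in one coordinate, that is, by Parseval, by sums of the fourth
powers of the Weyl sums. Then a compactness argument gives the weak convergence.
-/

set_option autoImplicit false

open MeasureTheory Filter Topology
open scoped BoundedContinuousFunction

namespace Pool.Agent.Results.MP_9177b7_ag.AlmostAllPacketsH40

open Pool.Agent.E8helper40.EQ Pool.Agent.E8helper40.PK

theorem result {G : Type} [Group G] (Γ : Subgroup G) {J : Type} [Fintype J] (W : J → Type)
    [∀ j, TopologicalSpace (W j)] [∀ j, PolishSpace (W j)] [∀ j, MeasurableSpace (W j)]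
    [∀ j, BorelSpace (W j)] (P : ∀ j, SpecialPoints Γ (W j))
    (m : ∀ j, ProbabilityMeasure (W j)) (c : ℕ) (Q : ℕ → ∀ j, Packet (P j))
    (hdegree : ∀ i j, ∀ z ∈ (Q i j).S, ((P j).K z).index ≠ 0 ∧ ((P j).K z).index ≤ c)
    (hQ : ∀ j, CharacterEquidistributed (fun i => Q i j) (m j)) :
    ∃ E : ℕ → Set (∀ j, (P j).Z),
      Tendsto (fun i => ((tuples (Q i) ∩ E i).ncard : ℝ) / (tuples (Q i)).ncard)
        atTop (𝓝 0) ∧
      ∀ y : ℕ → ∀ j, (P j).Z, (∀ i, y i ∈ tuples (Q i)) → (∀ᶠ i in atTop, y i ∉ E i) →
        ∀ f : (∀ j, W j) →ᵇ ℝ, Tendsto (fun i => ∫ w, f w ∂(galoisMeasure P (y i))) atTop
          (𝓝 (∫ w, f w ∂(Measure.pi fun j => (m j : Measure (W j))))) :=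
  almost_all P m c Q hdegree hQ

end Pool.Agent.Results.MP_9177b7_ag.AlmostAllPacketsH40
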