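import Pool.Agent.E8helper40.LG.Chain

/-!
# Special points of products of Shimura varieties with large Galois orbits are equidistributed

Let `S = S_0 × ⋯ × S_n` be a product of connected components of Shimura varieties, defined over the
number field `F`, and `x_i = (x_{i0}, …, x_{in})` a sequence of special points of `S`. The Galois
orbit `G(x_i)` has at most `∏_j |G(x_{ij})|` elements. We show that the uniform measures `μ_{x_i}`
converge to the product of the limit measures of the coordinates if the orbit is almost as large as
this, in the following sense.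

**Theorem.** If for some `η` the coordinates `x_{ij}`, `j > 0`, are sparsely equidistributed with
exponent `η` with respect to `m_j`, the Galois orbits of `x_{i0}` are equidistributed with respect to
`m_0`, and `|G(x_{i0}, …, x_{i(j-1)})| |G(x_{ij})| = o(|G(x_{i0}, …, x_{ij})| |G(x_{ij})|^η)` for
`0 < j ≤ n`, then the uniform measures on the Galois orbits of the `x_i` converge weakly to the
product of the measures `m_j`.

Sparsely equidistributed with exponent `η`: the orbits of the conjugates `z` of `x_{ij}` under
subgroups `B` of `Gal(ℚ̄ / F L_{ij})`, `L_{ij}` the Galois closure of the reflex field, with at least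
`|G(x_{ij})| ^ (1 - η)` elements are equidistributed, uniformly in `z` and `B`. For the CM points on
modular and Shimura curves whose discriminants tend to infinity this is known for some `η > 0`
(Harcos-Michel 2006, Michel-Venkatesh 2010, Zhang 2005). For the factor `S_0`, which may be an
arbitrary Shimura variety, only the equidistribution of the Galois orbits is assumed.

The condition on the sizes says that the field generated by `x_{ij}` is nearly linearly disjoint
from the field generated by `x_{i0}, …, x_{i(j-1)}`. It holds for example if
`|G(x_{i0}, …, x_{i(j-1)})| = o(|G(x_{ij})| ^ η)` for `0 < j ≤ n`, whatever the fields `L_{ij}` are: so if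
Q1 holds for `S_0`, then it holds for the special points of `S_0 × C_1 × ⋯ × C_n`, the `C_j` Shimura
curves, whose coordinates in the `C_j` have much larger discriminants than the coordinates before
them.

Dictionary: `G = Gal(ℚ̄ / ℚ)`, `Γ = Gal(ℚ̄ / F)`, `W j = S_j`, `(P j).Z` the set of special points of
`S_j`, `(P j).K z = Gal(ℚ̄ / L_z)`, which has index at most `c`, `cm (P j) z` its intersection with
`Γ`, and `(P j).N z = Gal(ℚ̄ / H_z)` for an abelian extension `H_z` of `L_z`, Galois over `ℚ`, such that
`z` is defined over `F H_z`.

The proof. The automorphisms which fix the coordinates `x_{i0}, …, x_{i(j-1)}` and the fields `L` move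
the `j`-th coordinate in an orbit with at least `|G(x_{ij})| ^ (1 - η)` elements, by the hypothesis on
the sizes; so the conditional averages of `f_j` are near to `∫ f_j dm_j`, and the coordinates can be
split off one after the other.
-/

set_option autoImplicit false

open MeasureTheory Filter Topology
open scoped BoundedContinuousFunction

namespace Pool.Agent.Results.MP_9177b7_ag.LargeOrbitsH40

open Pool.Agent.E8helper40.EQ Pool.Agent.E8helper40.AA Pool.Agent.E8helper40.LG

theorem result {G : Type} [Group G] (Γ : Subgroup G) (n : ℕ) (W : Fin (n + 1) → Type)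
    [∀ j, TopologicalSpace (W j)] [∀ j, PolishSpace (W j)] [∀ j, MeasurableSpace (W j)]
    [∀ j, BorelSpace (W j)] (P : ∀ j, SpecialPoints Γ (W j))
    (m : ∀ j, ProbabilityMeasure (W j)) (c : ℕ) (x : ℕ → ∀ j, (P j).Z)
    (hdegree : ∀ i j, ((P j).K (x i j)).index ≠ 0 ∧ ((P j).K (x i j)).index ≤ c)
    (h₀ : ∀ f : (W 0) →ᵇ ℝ,
      Tendsto (fun i => ∫ w, f w ∂(uniform (MulAction.orbit Γ (x i 0)) (P 0).pt)) atTop
        (𝓝 (∫ w, f w ∂(m 0 : Measure (W 0))))) (η : ℝ)
    (hsparse : ∀ j, 0 < j → SparselyEquidistributed (P j) (fun i => x i j) (m j) η)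
    (hlarge : ∀ j, 0 < j → Tendsto (fun i =>
      ((MulAction.orbit Γ (fun l : {l // l < j} => x i l)).ncard *
        (MulAction.orbit Γ (x i j)).ncard : ℝ) /
      ((MulAction.orbit Γ (fun l : {l // l ≤ j} => x i l)).ncard *
        ((MulAction.orbit Γ (x i j)).ncard : ℝ) ^ η)) atTop (𝓝 0)) (f : (∀ j, W j) →ᵇ ℝ) :
    Tendsto (fun i => ∫ w, f w ∂(galoisMeasure P (x i))) atTop
      (𝓝 (∫ w, f w ∂(Measure.pi fun j => (m j : Measure (W j))))) := by
  have h1 := chain P m c x hdegree η 0 (fun j => Fin.zero_le j)
    (ProbabilityMeasure.tendsto_iff_forall_integral_tendsto.2 h₀) hsparse hlarge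
  have h2 := (ProbabilityMeasure.tendsto_iff_forall_integral_tendsto.1 h1) f
  rw [ProbabilityMeasure.toMeasure_pi] at h2
  exact h2

end Pool.Agent.Results.MP_9177b7_ag.LargeOrbitsH40
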