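import Pool.Agent.E8helper40.EQ.Strong

/-!
# Special points on products of Shimura varieties: independence of Galois orbits

Let `S_j`, `j ∈ J` finite, be connected components of Shimura varieties, all defined over the number
field `F`, and `S` their product, a connected component of the Shimura variety of the product of the
Shimura data. Let `x_i = (x_{ij})` be a sequence of special points of `S`. For a special point `z` of
`S_j` with Mumford-Tate torus `T` let `L_z` be the Galois closure over `ℚ` of the reflex field of `(T, z)`.

**Theorem.** Suppose that the fields of the coordinates have totally real intersections: for all `i`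
and all `j ≠ j'` the intersection of the fields `L` of `x_{ij}` and `x_{ij'}` is real. If for every `j`
the sequence `(x_{ij})` is strongly equidistributed in `S_j` with respect to a probability measure `m_j`
(for instance the invariant one), then `(x_i)` is strongly equidistributed in `S` with respect to the
product of the measures `m_j`. In particular the uniform measures on the orbits of the `x_i` under
`Gal(ℚ̄ / F)` converge weakly to this product.

Strongly equidistributed means that the uniform measures on the orbits of the Galois conjugates of
the points, under the groups generated by the `2 ^ k`-th powers of the elements of subgroups of bounded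
index of `Gal(ℚ̄ / F)` contained in `Gal(ℚ̄ / L)`, converge weakly to the given measure, for every `k`,
uniformly. So the property is stable under products of points with fields with totally real
intersections.

**Consequences.** For Shimura curves (over arbitrary totally real fields) all sequences of special
points which leave every finite set are strongly equidistributed with respect to the invariant measure:
the Galois orbits are the orbits of (ring class) groups of CM fields, the index of the subgroups is
`D ^ o(1)` by genus theory, and the Weyl sums for all characters have a power saving, by
subconvex bounds for `GL_2` over number fields (Zhang 2005, Venkatesh, Michel-Venkatesh 2010). So the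
answer to Q1 is positive for all sequences of special points on products of any number of Shimura
curves such that the Galois closures of the CM fields of the coordinates have pairwise totally real
intersections; this can be used as well for one coordinate `S_j` which is any other Shimura variety with
a sequence of special points that is known to be strongly equidistributed.

Dictionary: `G = Gal(ℚ̄ / ℚ)`, `Γ = Gal(ℚ̄ / F)`, `conj` a complex conjugation, `(P j).Z` the special
points of `S_j`, `(P j).K z = Gal(ℚ̄ / L_z)`, `(P j).N z` the largest normal subgroup of `G` contained in
the stabilizer of `z` in `Gal(ℚ̄ / F L_z)`. It contains the commutators, as `Gal(ℚ̄ / L_z)`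
acts on `z` through the abelian group `T(𝔸_f)` (reciprocity law). The degree of `L_z` is bounded on
`S_j`. The complex conjugation acts as `-1` on the cocharacters of the image of `T` in the adjoint
group; so for an idele `s` of `L_z` the reciprocity map takes `s s̄` to the centre, up to bounded index,
and the centre acts on `Sh_K` through a finite group. Hence `conj` acts by inversion, modulo `N z`, on a
subgroup of index at most `C`, with `C` depending only on `S_j` and `F`: this is `CMType conj C (P j)`.
The intersection of `L_z` and `L_{z'}` is real if and only if `conj ∈ Gal(ℚ̄ / L_z) Gal(ℚ̄ / L_{z'})`.
-/

set_option autoImplicit false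

open MeasureTheory Filter Topology
open scoped BoundedContinuousFunction

namespace Pool.Agent.Results.MP_9177b7_ag.TotallyRealIntersectionsH40

open Pool.Agent.E8helper40.EQ

theorem result {G : Type} [Group G] (Γ : Subgroup G) (hΓ : Γ.index ≠ 0) (conj : G) (C : ℕ)
    {J : Type} [Fintype J] (S : J → Type) [∀ j, TopologicalSpace (S j)]
    [∀ j, SecondCountableTopology (S j)] [∀ j, TopologicalSpace.PseudoMetrizableSpace (S j)]
    [∀ j, MeasurableSpace (S j)] [∀ j, BorelSpace (S j)]
    (P : ∀ j, SpecialPoints Γ (S j)) (hP : ∀ j, CMType conj C (P j))
    (m : ∀ j, ProbabilityMeasure (S j)) (x : ℕ → ∀ j, (P j).Z)
    (hreal : ∀ i j j', j ≠ j' → conj ∈ (P j).K (x i j) ⊔ (P j').K (x i j'))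
    (hstrong : ∀ j, (P j).StronglyEquidistributed (fun i => x i j) (m j)) :
    (SpecialPoints.pi P).StronglyEquidistributed x (ProbabilityMeasure.pi m) ∧
      ∀ f : (∀ j, S j) →ᵇ ℝ, Tendsto (fun i => ∫ w, f w ∂(galoisMeasure P (x i))) atTop
        (𝓝 (∫ w, f w ∂(Measure.pi fun j => (m j : Measure (S j))))) := by
  have hK : ∀ i j, ((P j).K (x i j)).index ≠ 0 ∧ ((P j).K (x i j)).index ≤ C * C := by
    intro i j
    obtain ⟨-, h0, hC, -⟩ := hP j (x i j)
    exact ⟨h0, hC.trans (Nat.le_mul_self _)⟩
  have hind : ∀ i, Independent P (C * C) (x i) := fun i a b hab =>
    inverts (hP a) (hP b) (x i a) (x i b) (hreal i a b hab)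
  exact ⟨strong_main hΓ P m (C * C) x hK hind hstrong, main hΓ P m (C * C) x hK hind hstrong⟩

end Pool.Agent.Results.MP_9177b7_ag.TotallyRealIntersectionsH40
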